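import Pool.Agent.TH198.DC.Grow

set_option autoImplicit false

/-! Shrinking a symmetric convex body to a prescribed number of lattice points, and a body with
prescribed lattice points. -/

open scoped Pointwise

namespace Pool.Agent.TH198.DC

namespace SB

variable {d : ℕ} {B : Set (Fin d → ℝ)}

theorem zero_mem_LP (hB : SB B) : (0 : Fin d → ℤ) ∈ LP B := by
  show rv 0 ∈ B
  rw [rv_zero]
  exact hB.zero_mem

theorem LP_pos (hB : SB B) : 0 < (LP B).ncard := by
  rw [Set.ncard_pos hB.fin1]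
  exact ⟨0, hB.zero_mem_LP⟩

/-- small dilates contain only the origin -/
theorem exists_small (hB : SB B) : ∃ j : ℕ, (LP ((1 / 2 : ℝ) ^ j • B)).ncard ≤ 1 := by
  obtain ⟨R, hR⟩ := hB.comp.isBounded.exists_norm_le
  obtain ⟨j, hj⟩ := exists_pow_lt_of_lt_one (show (0 : ℝ) < 1 / (|R| + 1) by positivity)
    (show (1 / 2 : ℝ) < 1 by norm_num)
  refine ⟨j, ?_⟩
  have hsub : LP ((1 / 2 : ℝ) ^ j • B) ⊆ {0} := by
    rintro z ⟨x, hx, hxz⟩
    have h1 := hR x hx
    have h2 : ‖rv z‖ < 1 := by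
      rw [← hxz]
      show ‖(1 / 2 : ℝ) ^ j • x‖ < 1
      rw [norm_smul, Real.norm_of_nonneg (by positivity)]
      have h3 : ‖x‖ < |R| + 1 := lt_of_le_of_lt (h1.trans (le_abs_self R)) (by linarith)
      calc (1 / 2 : ℝ) ^ j * ‖x‖ ≤ (1 / 2 : ℝ) ^ j * (|R| + 1) := by gcongr
        _ < 1 / (|R| + 1) * (|R| + 1) := by gcongr
        _ = 1 := by field_simp
    rw [Set.mem_singleton_iff]
    funext i
    have h4 : |(z i : ℝ)| < 1 := lt_of_le_of_lt (norm_le_pi_norm (rv z) i) h2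
    have h5 : |z i| < 1 := by exact_mod_cast h4
    exact Int.abs_lt_one_iff.1 h5
  calc (LP ((1 / 2 : ℝ) ^ j • B)).ncard ≤ ({0} : Set (Fin d → ℤ)).ncard :=
        Set.ncard_le_ncard hsub
    _ = 1 := Set.ncard_singleton _

/-- the shrinking step -/
theorem shrink (hB : SB B) {N : ℕ} (hN : 1 ≤ N) :
    ∃ B' : Set (Fin d → ℝ), SB B' ∧ (LP B').ncard ≤ N ∧ ∃ X : Finset (Fin d → ℤ),
      X.card * N ≤ 625 ^ d * max N (LP B).ncard ∧
      ∀ z ∈ LP ((2 : ℝ) • B), ∃ x ∈ X, ∃ w ∈ LP B', z = x + w := by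
  classical
  have hex : ∃ j : ℕ, (LP ((1 / 2 : ℝ) ^ j • B)).ncard ≤ N := by
    obtain ⟨j, hj⟩ := hB.exists_small
    exact ⟨j, hj.trans hN⟩
  obtain ⟨j, hj, hmin⟩ : ∃ j : ℕ, (LP ((1 / 2 : ℝ) ^ j • B)).ncard ≤ N ∧
      ∀ i < j, N < (LP ((1 / 2 : ℝ) ^ i • B)).ncard :=
    ⟨Nat.find hex, Nat.find_spec hex, fun i hi => not_le.1 (Nat.find_min hex hi)⟩
  have hr : (0 : ℝ) < (1 / 2 : ℝ) ^ j := by positivity
  have hr1 : (1 / 2 : ℝ) ^ j ≤ 1 := pow_le_one₀ (by norm_num) (by norm_num)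
  have hB' := hB.smul hr
  refine ⟨(1 / 2 : ℝ) ^ j • B, hB', hj, ?_⟩
  -- the two finite sets
  have hPf := hB.fin 2
  have hUf := hB.fin ((1 / 2 : ℝ) ^ j * (1 / 2))
  set P := hPf.toFinset with hP
  set U := hUf.toFinset with hU
  have hU0 : (0 : Fin d → ℤ) ∈ U := by
    rw [hU, Set.Finite.mem_toFinset]
    exact (hB.smul (by positivity)).zero_mem_LP
  have hUc : U.card = (LP (((1 / 2 : ℝ) ^ j * (1 / 2)) • B)).ncard := by
    rw [Set.ncard_eq_toFinset_card _ hUf]
  have hUpos : 0 < U.card := Finset.card_pos.2 ⟨0, hU0⟩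
  have hPU : (P + U).card ≤ 25 ^ d * (LP B).ncard := by
    have h1 : (P + U : Finset (Fin d → ℤ)) ⊆ (hB.fin (2 * (2 * 1))).toFinset := by
      intro z hz
      obtain ⟨x, hx, y, hy, rfl⟩ := Finset.mem_add.1 hz
      rw [hP, Set.Finite.mem_toFinset] at hx
      rw [hU, Set.Finite.mem_toFinset] at hy
      rw [Set.Finite.mem_toFinset]
      show rv (x + y) ∈ (2 * (2 * 1) : ℝ) • B
      rw [rv_add]
      have hx' : rv x ∈ (2 : ℝ) • B := hx
      have hy' : rv y ∈ ((1 / 2 : ℝ) ^ j * (1 / 2)) • B := hy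
      exact hB.smul_subset (by positivity) (by linarith)
        (hB.add_mem (by norm_num) (by positivity) hx' hy')
    have h2 := Finset.card_le_card h1
    rw [← Set.ncard_eq_toFinset_card _ (hB.fin (2 * (2 * 1)))] at h2
    have h3 := hB.grow' (r := 2 * 1) (by norm_num)
    have h4 := hB.grow' (r := 1) (by norm_num)
    rw [one_smul] at h4
    calc (P + U).card ≤ _ := h2
      _ ≤ 5 ^ d * (5 ^ d * (LP B).ncard) := h3.trans (Nat.mul_le_mul_left _ h4)
      _ = 25 ^ d * (LP B).ncard := by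
        rw [← mul_assoc, ← mul_pow]; norm_num
  -- lower bound for U
  have hlow : N * (P + U).card ≤ 625 ^ d * max N (LP B).ncard * U.card := by
    rcases Nat.eq_zero_or_pos j with h0 | h0
    · have h5 := hB.grow' (r := (1 / 2 : ℝ) ^ j * (1 / 2)) (by positivity)
      rw [← hUc, show (2 : ℝ) * ((1 / 2 : ℝ) ^ j * (1 / 2)) = 1 by rw [h0]; norm_num, one_smul] at h5
      calc N * (P + U).card ≤ N * (25 ^ d * (LP B).ncard) := Nat.mul_le_mul_left _ hPU
        _ ≤ N * (25 ^ d * (5 ^ d * U.card)) := by gcongr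
        _ = 125 ^ d * N * U.card := by
          rw [show (125 : ℕ) = 25 * 5 by norm_num, mul_pow]; ring
        _ ≤ 625 ^ d * max N (LP B).ncard * U.card := by
          gcongr
          · norm_num
          · exact le_max_left _ _
    · obtain ⟨i, rfl⟩ : ∃ i, j = i + 1 := ⟨j - 1, by omega⟩
      have h5 := hmin i (by omega)
      have h6 := hB.grow' (r := (1 / 2 : ℝ) ^ (i + 1) * (1 / 2)) (by positivity)
      have h7 := hB.grow' (r := 2 * ((1 / 2 : ℝ) ^ (i + 1) * (1 / 2))) (by positivity)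
      rw [show (2 : ℝ) * (2 * ((1 / 2 : ℝ) ^ (i + 1) * (1 / 2))) = (1 / 2 : ℝ) ^ i by
        rw [pow_succ]; ring] at h7
      rw [← hUc] at h6
      have h8 : N ≤ 25 ^ d * U.card := by
        calc N ≤ (LP ((1 / 2 : ℝ) ^ i • B)).ncard := h5.le
          _ ≤ 5 ^ d * (5 ^ d * U.card) := h7.trans (Nat.mul_le_mul_left _ h6)
          _ = 25 ^ d * U.card := by rw [← mul_assoc, ← mul_pow]; norm_num
      calc N * (P + U).card ≤ (25 ^ d * U.card) * (25 ^ d * (LP B).ncard) := Nat.mul_le_mul h8 hPU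
        _ = 625 ^ d * (LP B).ncard * U.card := by
          rw [show (625 : ℕ) = 25 * 25 by norm_num, mul_pow]; ring
        _ ≤ 625 ^ d * max N (LP B).ncard * U.card := by
          gcongr
          exact le_max_right _ _
  have hNr : (0 : ℝ) < N := by exact_mod_cast hN
  obtain ⟨X, hXP, hXc, hXcov⟩ := Finset.ruzsa_covering_add (A := P) (B := U)
    (K := (625 ^ d * max N (LP B).ncard : ℕ) / (N : ℝ)) ⟨0, hU0⟩ (by
      rw [div_mul_eq_mul_div, le_div_iff₀ hNr]
      have : ((N * (P + U).card : ℕ) : ℝ) ≤ ((625 ^ d * max N (LP B).ncard * U.card : ℕ) : ℝ) := by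
        exact_mod_cast hlow
      push_cast at this ⊢
      linarith)
  refine ⟨X, ?_, ?_⟩
  · rw [le_div_iff₀ hNr] at hXc
    exact_mod_cast hXc
  · intro z hz
    have hzP : z ∈ P := by
      rw [hP, Set.Finite.mem_toFinset]
      exact hz
    obtain ⟨x, hx, w, hw, hxw⟩ := Finset.mem_add.1 (hXcov hzP)
    obtain ⟨u, hu, v, hv, huv⟩ := Finset.mem_sub.1 hw
    refine ⟨x, hx, w, ?_, hxw.symm⟩
    rw [hU, Set.Finite.mem_toFinset] at hu hv
    show rv w ∈ (1 / 2 : ℝ) ^ j • B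
    rw [← huv, rv_sub, sub_eq_add_neg]
    have hu' : rv u ∈ ((1 / 2 : ℝ) ^ j * (1 / 2)) • B := hu
    have hv' : rv v ∈ ((1 / 2 : ℝ) ^ j * (1 / 2)) • B := hv
    have h9 := hB.add_mem (by positivity) (by positivity) hu' (hB.neg_mem hv')
    rwa [show (1 / 2 : ℝ) ^ j * (1 / 2) + (1 / 2 : ℝ) ^ j * (1 / 2) = (1 / 2 : ℝ) ^ j by ring] at h9

end SB

/-- a finite symmetric set of lattice points that is lattice-convex is the set of all lattice points
of a symmetric convex body -/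
theorem exists_SB {d : ℕ} (Q : Set (Fin d → ℤ)) (hQ : Q.Finite) (h0 : (0 : Fin d → ℤ) ∈ Q)
    (hs : ∀ z ∈ Q, -z ∈ Q) (hc : ∀ z, rv z ∈ convexHull ℝ (rv '' Q) → z ∈ Q) :
    ∃ B : Set (Fin d → ℝ), SB B ∧ LP B = Q := by
  classical
  set H := convexHull ℝ (rv '' Q) with hH
  have hHc : IsCompact H := (hQ.image rv).isCompact_convexHull (𝕜 := ℝ)
  have hHs : ∀ x ∈ H, -x ∈ H := by
    intro x hx
    have h1 : -x ∈ -H := by simpa using hx
    rw [hH, ← convexHull_neg (𝕜 := ℝ)] at h1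
    refine convexHull_mono ?_ h1
    rintro y hy
    rw [Set.mem_neg] at hy
    obtain ⟨z, hz, hzy⟩ := hy
    refine ⟨-z, hs z hz, ?_⟩
    rw [rv_neg, hzy, neg_neg]
  have hH0 : (0 : Fin d → ℝ) ∈ H := subset_convexHull _ _ ⟨0, h0, rv_zero⟩
  have hfin1 : (LP (Metric.cthickening 1 H)).Finite := LP_finite hHc.isBounded.cthickening
  set G := rv '' (LP (Metric.cthickening 1 H) \ Q) with hG
  have hGc : IsClosed G := ((hfin1.subset Set.sdiff_subset).image _).isClosed
  have hdisj : Disjoint H G := by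
    rw [Set.disjoint_left]
    rintro _ hx ⟨z, hz, rfl⟩
    exact hz.2 (hc z hx)
  obtain ⟨δ, hδ, hdd⟩ := hdisj.exists_cthickenings hHc hGc
  set ε := min δ 1 with hε
  have hεp : 0 < ε := lt_min hδ one_pos
  refine ⟨H + Metric.closedBall 0 ε, ⟨?_, ?_, ?_, ?_⟩, ?_⟩
  · exact (convex_convexHull ℝ _).add (convex_closedBall _ _)
  · exact hHc.add (isCompact_closedBall _ _)
  · refine ⟨0, ?_⟩
    rw [mem_interior]
    refine ⟨Metric.ball 0 ε, ?_, Metric.isOpen_ball, Metric.mem_ball_self hεp⟩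
    intro x hx
    exact ⟨0, hH0, x, Metric.ball_subset_closedBall hx, by simp⟩
  · rintro _ ⟨x, hx, y, hy, rfl⟩
    refine ⟨-x, hHs x hx, -y, ?_, ?_⟩
    · rw [mem_closedBall_zero_iff] at hy ⊢
      rwa [norm_neg]
    · show -x + -y = -(x + y)
      abel
  · have hsub : H + Metric.closedBall 0 ε ⊆ Metric.cthickening ε H := by
      rintro _ ⟨x, hx, y, hy, rfl⟩
      rw [mem_closedBall_zero_iff] at hy
      exact Metric.mem_cthickening_of_dist_le _ x _ _ hx (by simpa using hy)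
    ext z
    constructor
    · intro hz
      replace hz := hsub hz
      by_contra hzQ
      have h1 : z ∈ LP (Metric.cthickening 1 H) :=
        Metric.cthickening_mono (min_le_right _ _) _ hz
      have h2 : rv z ∈ G := ⟨z, ⟨h1, hzQ⟩, rfl⟩
      exact Set.disjoint_left.1 hdd (Metric.cthickening_mono (min_le_left _ _) _ hz)
        (Metric.self_subset_cthickening _ h2)
    · intro hz
      exact ⟨rv z, subset_convexHull _ _ ⟨z, hz, rfl⟩, 0, by simp [hεp.le], by simp⟩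

end Pool.Agent.TH198.DC
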