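import Mathlib

set_option autoImplicit false

/-! Lattice points of the dilates of a symmetric convex body. -/

open scoped Pointwise
open MeasureTheory

namespace Pool.Agent.TH198.DC

/-- the real vector of an integer vector -/
def rv {d : ℕ} (z : Fin d → ℤ) : Fin d → ℝ := fun i => (z i : ℝ)

theorem rv_add {d : ℕ} (x y : Fin d → ℤ) : rv (x + y) = rv x + rv y := by
  funext i; simp [rv]

theorem rv_sub {d : ℕ} (x y : Fin d → ℤ) : rv (x - y) = rv x - rv y := by
  funext i; simp [rv]

theorem rv_neg {d : ℕ} (x : Fin d → ℤ) : rv (-x) = -rv x := by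
  funext i; simp [rv]

theorem rv_zero {d : ℕ} : rv (0 : Fin d → ℤ) = 0 := by
  funext i; simp [rv]

theorem rv_inj {d : ℕ} : Function.Injective (rv : (Fin d → ℤ) → (Fin d → ℝ)) := by
  intro x y h
  funext i
  have := congrFun h i
  simpa [rv] using this

/-- symmetric convex body -/
structure SB {d : ℕ} (B : Set (Fin d → ℝ)) : Prop where
  conv : Convex ℝ B
  comp : IsCompact B
  inter : (interior B).Nonempty
  symm : ∀ x ∈ B, -x ∈ B

/-- lattice points -/
def LP {d : ℕ} (B : Set (Fin d → ℝ)) : Set (Fin d → ℤ) := {z | rv z ∈ B}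

theorem LP_mono {d : ℕ} {B C : Set (Fin d → ℝ)} (h : B ⊆ C) : LP B ⊆ LP C := fun _ hz => h hz

theorem LP_finite {d : ℕ} {B : Set (Fin d → ℝ)} (hB : Bornology.IsBounded B) : (LP B).Finite := by
  obtain ⟨R, hR⟩ := hB.exists_norm_le
  have hsub : LP B ⊆ Set.Icc (fun _ => -⌈R⌉) (fun _ => ⌈R⌉) := by
    intro z hz
    have h1 := hR _ hz
    rw [Set.mem_Icc, Pi.le_def, Pi.le_def]
    have h2 : ∀ i, |(z i : ℝ)| ≤ ⌈R⌉ := fun i =>
      ((norm_le_pi_norm (rv z) i).trans h1).trans (Int.le_ceil R)
    constructor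
    · intro i
      have := (abs_le.1 (h2 i)).1
      exact_mod_cast this
    · intro i
      have := (abs_le.1 (h2 i)).2
      exact_mod_cast this
  exact (Set.finite_Icc _ _).subset hsub

namespace SB

variable {d : ℕ} {B : Set (Fin d → ℝ)}

theorem zero_mem (hB : SB B) : (0 : Fin d → ℝ) ∈ B := by
  obtain ⟨x, hx⟩ := hB.inter
  have hx' := interior_subset hx
  have h := hB.conv hx' (hB.symm x hx') (by norm_num : (0 : ℝ) ≤ 1 / 2) (by norm_num : (0 : ℝ) ≤ 1 / 2)
    (by norm_num)
  simpa using h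

theorem smul (hB : SB B) {r : ℝ} (hr : 0 < r) : SB (r • B) where
  conv := hB.conv.smul r
  comp := hB.comp.smul r
  inter := by
    rw [interior_smul₀ hr.ne']
    exact hB.inter.smul_set
  symm := by
    rintro _ ⟨x, hx, rfl⟩
    exact ⟨-x, hB.symm x hx, by simp⟩

theorem smul_subset (hB : SB B) {r s : ℝ} (hr : 0 ≤ r) (hrs : r ≤ s) : r • B ⊆ s • B := by
  rintro _ ⟨x, hx, rfl⟩
  rcases eq_or_lt_of_le (hr.trans hrs) with h | h
  · have h1 : r = 0 := le_antisymm (hrs.trans h.symm.le) hr
    subst h1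
    rw [← h]
    exact ⟨x, hx, rfl⟩
  · refine ⟨(r / s) • x, ?_, ?_⟩
    · have h1 : r / s ≤ 1 := (div_le_one h).2 hrs
      have h2 := hB.conv hx hB.zero_mem (by positivity : 0 ≤ r / s) (by linarith : 0 ≤ 1 - r / s)
        (by ring)
      simpa using h2
    · show s • (r / s) • x = r • x
      rw [smul_smul, mul_div_cancel₀ _ h.ne']

theorem add_mem (hB : SB B) {r s : ℝ} (hr : 0 ≤ r) (hs : 0 ≤ s) {x y : Fin d → ℝ}
    (hx : x ∈ r • B) (hy : y ∈ s • B) : x + y ∈ (r + s) • B := by
  rw [hB.conv.add_smul hr hs]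
  exact Set.add_mem_add hx hy

theorem neg_mem (hB : SB B) {r : ℝ} {x : Fin d → ℝ}
    (hx : x ∈ r • B) : -x ∈ r • B := by
  obtain ⟨y, hy, rfl⟩ := hx
  exact ⟨-y, hB.symm y hy, by simp⟩

theorem bdd (hB : SB B) (r : ℝ) : Bornology.IsBounded (r • B) := (hB.comp.smul r).isBounded

theorem fin (hB : SB B) (r : ℝ) : (LP (r • B)).Finite := LP_finite (hB.bdd r)

theorem fin1 (hB : SB B) : (LP B).Finite := LP_finite hB.comp.isBounded

/-- a packing bound -/
theorem pack (hB : SB B) (X : Finset (Fin d → ℤ)) (hX : ∀ x ∈ X, rv x ∈ (2 : ℝ) • B)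
    (hsep : ∀ x ∈ X, ∀ y ∈ X, x ≠ y → rv x - rv y ∉ B) : X.card ≤ 5 ^ d := by
  have hvol0 : volume B ≠ 0 := by
    intro h
    have h1 : volume (interior B) = 0 := measure_mono_null interior_subset h
    have h2 := isOpen_interior.measure_pos volume hB.inter
    rw [h1] at h2
    exact lt_irrefl _ h2
  have hvolt : volume B ≠ ⊤ := hB.comp.measure_lt_top.ne
  let E : (Fin d → ℤ) → Set (Fin d → ℝ) := fun x => (fun y => rv x + y) '' ((1 / 2 : ℝ) • B)
  have hEm : ∀ x, MeasurableSet (E x) := fun x =>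
    ((hB.comp.smul (1 / 2 : ℝ)).image (by fun_prop)).measurableSet
  have hEv : ∀ x, volume (E x) = ENNReal.ofReal ((1 / 2 : ℝ) ^ d) * volume B := by
    intro x
    have h1 : volume (E x) = volume ((1 / 2 : ℝ) • B) := by
      simp only [E, Set.image_add_left]
      rw [measure_preimage_add]
    rw [h1, Measure.addHaar_smul, Module.finrank_fin_fun, abs_of_pos (by positivity)]
  have hdisj : Set.PairwiseDisjoint (X : Set (Fin d → ℤ)) E := by
    intro x hx y hy hxy
    rw [Function.onFun, Set.disjoint_left]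
    rintro _ ⟨u, hu, rfl⟩ ⟨v, hv, huv⟩
    apply hsep x hx y hy hxy
    have h1 : rv x - rv y = v + -u := by
      have h0 : rv y + v = rv x + u := huv
      funext i
      have h00 := congrFun h0 i
      simp only [Pi.add_apply, Pi.sub_apply, Pi.neg_apply] at h00 ⊢
      linarith
    rw [h1]
    have h2 := hB.add_mem (by norm_num) (by norm_num) hv (hB.neg_mem hu)
    rw [show (1 / 2 : ℝ) + 1 / 2 = 1 by norm_num, one_smul] at h2
    exact h2
  have hsub : (⋃ x ∈ X, E x) ⊆ (5 / 2 : ℝ) • B := by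
    intro w hw
    rw [Set.mem_iUnion₂] at hw
    obtain ⟨x, hx, u, hu, rfl⟩ := hw
    have h2 := hB.add_mem (by norm_num) (by norm_num) (hX x hx) hu
    rw [show (2 : ℝ) + 1 / 2 = 5 / 2 by norm_num] at h2
    exact h2
  have h3 : volume (⋃ x ∈ X, E x) = ∑ x ∈ X, volume (E x) :=
    measure_biUnion_finset hdisj fun x _ => hEm x
  have h4 := measure_mono (μ := volume) hsub
  rw [h3, Finset.sum_congr rfl fun x _ => hEv x, Finset.sum_const, Measure.addHaar_smul,
    Module.finrank_fin_fun, abs_of_pos (by positivity), nsmul_eq_mul, ← mul_assoc] at h4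
  have h5 := (ENNReal.mul_le_mul_iff_left hvol0 hvolt).1 h4
  rw [← ENNReal.ofReal_natCast, ← ENNReal.ofReal_mul (by positivity),
    ENNReal.ofReal_le_ofReal_iff (by positivity)] at h5
  have h6 : (X.card : ℝ) ≤ 5 ^ d := by
    rw [div_pow, div_pow, one_pow] at h5
    have h7 : (0 : ℝ) < 2 ^ d := by positivity
    have h8 : (X.card : ℝ) * (1 / 2 ^ d) = X.card / 2 ^ d := by ring
    rw [h8, div_le_div_iff_of_pos_right h7] at h5
    exact h5
  exact_mod_cast h6

/-- doubling a body multiplies the number of the lattice points by at most `5 ^ d` -/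
theorem grow (hB : SB B) : (LP ((2 : ℝ) • B)).ncard ≤ 5 ^ d * (LP B).ncard := by
  classical
  have hF := hB.fin 2
  let Good : Finset (Fin d → ℤ) → Prop := fun X => ∀ x ∈ X, ∀ y ∈ X, x ≠ y → rv x - rv y ∉ B
  obtain ⟨X, hX, hmax⟩ := Finset.exists_max_image (hF.toFinset.powerset.filter Good) Finset.card
    ⟨∅, by simp [Good]⟩
  rw [Finset.mem_filter, Finset.mem_powerset] at hX
  obtain ⟨hXF, hXg⟩ := hX
  have hXcard : X.card ≤ 5 ^ d := hB.pack X (fun x hx => by
    have := hXF hx
    rw [Set.Finite.mem_toFinset] at this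
    exact this) hXg
  have hcov : hF.toFinset ⊆ X.biUnion fun x => hB.fin1.toFinset.image fun z => x + z := by
    intro y hy
    by_contra hc
    rw [Finset.mem_biUnion] at hc
    push Not at hc
    have hfar : ∀ x ∈ X, rv y - rv x ∉ B := by
      intro x hx h
      apply hc x hx
      rw [Finset.mem_image]
      refine ⟨y - x, ?_, by abel⟩
      rw [Set.Finite.mem_toFinset]
      show rv (y - x) ∈ B
      rw [rv_sub]
      exact h
    have hyX : y ∉ X := by
      intro h
      apply hfar y h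
      rw [sub_self]
      exact hB.zero_mem
    have h1 := hmax (insert y X) (by
      rw [Finset.mem_filter, Finset.mem_powerset]
      refine ⟨Finset.insert_subset hy hXF, ?_⟩
      intro a ha b hb hab
      rw [Finset.mem_insert] at ha hb
      rcases ha with rfl | ha <;> rcases hb with rfl | hb
      · exact absurd rfl hab
      · exact hfar b hb
      · intro h
        apply hfar a ha
        have := hB.symm _ h
        rwa [neg_sub] at this
      · exact hXg a ha b hb hab)
    rw [Finset.card_insert_of_notMem hyX] at h1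
    omega
  rw [Set.ncard_eq_toFinset_card _ hF, Set.ncard_eq_toFinset_card _ hB.fin1]
  calc hF.toFinset.card ≤ (X.biUnion fun x => hB.fin1.toFinset.image fun z => x + z).card :=
        Finset.card_le_card hcov
    _ ≤ ∑ x ∈ X, (hB.fin1.toFinset.image fun z => x + z).card := Finset.card_biUnion_le
    _ ≤ ∑ _x ∈ X, hB.fin1.toFinset.card := Finset.sum_le_sum fun x _ => Finset.card_image_le
    _ = X.card * hB.fin1.toFinset.card := by rw [Finset.sum_const, smul_eq_mul]
    _ ≤ 5 ^ d * hB.fin1.toFinset.card := Nat.mul_le_mul_right _ hXcard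

theorem grow' (hB : SB B) {r : ℝ} (hr : 0 < r) :
    (LP ((2 * r : ℝ) • B)).ncard ≤ 5 ^ d * (LP (r • B)).ncard := by
  have h := (hB.smul hr).grow
  rwa [smul_smul] at h

end SB

end Pool.Agent.TH198.DC
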