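import Pool.Agent.TH198.DC.Slice

set_option autoImplicit false

/-! Sets that are dense in a convex set, in arbitrary dimension. -/

open scoped Pointwise

namespace Pool.Agent.TH198.DC

theorem log2500 : Real.log 2500 ≤ 7.8562 := by
  have h1 : Real.log ((2500 : ℝ) ^ 3) ≤ Real.log ((2 : ℝ) ^ 34) :=
    Real.log_le_log (by norm_num) (by norm_num)
  rw [Real.log_pow, Real.log_pow] at h1
  have h2 := Real.log_two_lt_d9
  push_cast at h1
  linarith

theorem pow2500 {K : ℝ} (hK : 1 ≤ K) {d : ℕ} (hd : (d : ℝ) ≤ 480 * Real.log K + 1) :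
    (2500 : ℝ) ^ d ≤ 2500 * K ^ 3771 := by
  have hK0 : 0 < K := by linarith
  have hlogK : 0 ≤ Real.log K := Real.log_nonneg hK
  have h0 : 0 ≤ Real.log 2500 := Real.log_nonneg (by norm_num)
  have h1 : (2500 : ℝ) ^ d = Real.exp (d * Real.log 2500) := by
    rw [Real.exp_nat_mul, Real.exp_log (by norm_num)]
  have h2 : 2500 * K ^ 3771 = Real.exp (Real.log 2500 + ((3771 : ℕ) : ℝ) * Real.log K) := by
    rw [Real.exp_add, Real.exp_log (by norm_num), Real.exp_nat_mul, Real.exp_log hK0]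
  rw [h1, h2, Real.exp_le_exp]
  calc (d : ℝ) * Real.log 2500 ≤ (480 * Real.log K + 1) * Real.log 2500 := by gcongr
    _ = Real.log 2500 + (480 * Real.log 2500) * Real.log K := by ring
    _ ≤ Real.log 2500 + ((3771 : ℕ) : ℝ) * Real.log K := by
      have := log2500
      gcongr
      push_cast
      linarith

/-- the theorem in the lattice -/
theorem core {n : ℕ} {K L : ℝ} {S : Finset (Fin n → ℤ)} (hS : S.Nonempty)
    (hK : ((S + S).card : ℝ) ≤ K * S.card) {C : Set (Fin n → ℝ)} (hC : Convex ℝ C)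
    (hCf : (LP C).Finite) (hSC : ∀ s ∈ S, s ∈ LP C) (hL : ((LP C).ncard : ℝ) ≤ L * S.card) :
    ∃ (d : ℕ) (ψ : (Fin d → ℤ) →+ (Fin n → ℤ)) (B : Set (Fin d → ℝ)) (X : Finset (Fin n → ℤ)),
      (d : ℝ) ≤ 480 * Real.log K + 1 ∧ Function.Injective ψ ∧ SB B ∧ (LP B).ncard ≤ S.card ∧
      (X.card : ℝ) ≤ L * (2 * K) ^ 4200 ∧ ∀ s ∈ S, ∃ x ∈ X, ∃ z ∈ LP B, s = x + ψ z := by
  classical
  have hc : (0 : ℝ) < S.card := by exact_mod_cast hS.card_pos
  have hK1 : 1 ≤ K := by
    have h1 : (S.card : ℝ) ≤ (S + S).card := by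
      exact_mod_cast Finset.card_le_card_add_right hS
    by_contra h
    nlinarith
  have hSL : (S.card : ℝ) ≤ (LP C).ncard := by
    have h1 : S.card ≤ (LP C).ncard := by
      rw [← Set.ncard_coe_finset]
      exact Set.ncard_le_ncard (fun s hs => hSC s hs) hCf
    exact_mod_cast h1
  have hL1 : 1 ≤ L := by
    by_contra h
    nlinarith
  obtain ⟨d, ψ, B, R, t, hd, hψ, hB, hBC, hRS, hRB, hRne, hRc⟩ := sym_slice hS hK hC hCf hSC
  -- the first covering
  set U := R.image fun z => t + ψ z with hU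
  have hUc : U.card = R.card := Finset.card_image_of_injective _ fun z w hzw =>
    hψ (add_left_cancel (hzw : t + ψ z = t + ψ w))
  have hUS : U ⊆ S := by
    intro x hx
    obtain ⟨z, hz, rfl⟩ := Finset.mem_image.1 hx
    exact hRS z hz
  have hSU : ((S + U).card : ℝ) ≤ (4 ^ d * K ^ 372) * U.card := by
    have h1 : ((S + U).card : ℝ) ≤ (S + S).card := by
      exact_mod_cast Finset.card_le_card (Finset.add_subset_add_left hUS)
    rw [hUc]
    calc ((S + U).card : ℝ) ≤ K * S.card := h1.trans hK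
      _ ≤ K * (4 ^ d * K ^ 371 * R.card) := by gcongr
      _ = (4 ^ d * K ^ 372) * R.card := by ring
  obtain ⟨X1, hX1S, hX1c, hX1⟩ := Finset.ruzsa_covering_add (hRne.image _) hSU
  -- the second covering
  obtain ⟨B', hB', hB'c, X2, hX2c, hX2⟩ := hB.shrink (N := S.card) hS.card_pos
  have hX2c' : (X2.card : ℝ) ≤ 625 ^ d * L := by
    have h1 : (X2.card : ℝ) * S.card ≤ 625 ^ d * (max S.card (LP B).ncard : ℕ) := by
      exact_mod_cast hX2c
    have h2 : ((max S.card (LP B).ncard : ℕ) : ℝ) ≤ L * S.card := by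
      rw [Nat.cast_max]
      refine max_le (by nlinarith) ?_
      have : ((LP B).ncard : ℝ) ≤ (LP C).ncard := by exact_mod_cast hBC
      exact this.trans hL
    have h3 : (X2.card : ℝ) * S.card ≤ (625 ^ d * L) * S.card := by
      calc (X2.card : ℝ) * S.card ≤ 625 ^ d * (max S.card (LP B).ncard : ℕ) := h1
        _ ≤ 625 ^ d * (L * S.card) := by gcongr
        _ = (625 ^ d * L) * S.card := by ring
    exact le_of_mul_le_mul_right h3 hc
  refine ⟨d, ψ, B', X1 + X2.image ψ, hd, hψ, hB', hB'c, ?_, ?_⟩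
  · have h1 : ((X1 + X2.image ψ : Finset (Fin n → ℤ)).card : ℝ) ≤ X1.card * X2.card := by
      have h2 : (X1 + X2.image ψ : Finset (Fin n → ℤ)).card ≤ X1.card * X2.card :=
        Finset.card_add_le.trans (Nat.mul_le_mul_left _ Finset.card_image_le)
      exact_mod_cast h2
    calc ((X1 + X2.image ψ : Finset (Fin n → ℤ)).card : ℝ) ≤ X1.card * X2.card := h1
      _ ≤ (4 ^ d * K ^ 372) * (625 ^ d * L) := by gcongr
      _ = 2500 ^ d * K ^ 372 * L := by
        rw [show (2500 : ℝ) = 4 * 625 by norm_num, mul_pow]; ring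
      _ ≤ (2500 * K ^ 3771) * K ^ 372 * L := by
        gcongr
        exact pow2500 hK1 hd
      _ = L * (2500 * K ^ 4143) := by ring
      _ ≤ L * (2 ^ 4200 * K ^ 4200) := by
        gcongr
        · calc (2500 : ℝ) ≤ 2 ^ 12 := by norm_num
            _ ≤ 2 ^ 4200 := pow_le_pow_right₀ (by norm_num) (by norm_num)
        · norm_num
      _ = L * (2 * K) ^ 4200 := by rw [mul_pow]
  · intro s hs
    obtain ⟨x1, hx1, u, hu, hxu⟩ := Finset.mem_add.1 (hX1 hs)
    obtain ⟨p, hp, q, hq, hpq⟩ := Finset.mem_sub.1 hu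
    obtain ⟨z, hz, rfl⟩ := Finset.mem_image.1 hp
    obtain ⟨w, hw, rfl⟩ := Finset.mem_image.1 hq
    obtain ⟨x2, hx2, v, hv, hzw⟩ := hX2 _ (hRB z hz w hw)
    refine ⟨x1 + ψ x2, Finset.add_mem_add hx1 (Finset.mem_image_of_mem _ hx2), v, hv, ?_⟩
    rw [← hxu, ← hpq, add_assoc, ← map_add, ← hzw, map_sub]
    abel

end Pool.Agent.TH198.DC
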