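import Pool.Agent.H137R2.Weak.Final
import Pool.Agent.TH198.DC.Cover

set_option autoImplicit false

/-! A dense slice of low dimension and a symmetric piece of it. -/

open scoped Pointwise

namespace Pool.Agent.TH198.DC

/-- parametrisation of the subgroup generated by a finite set of integer vectors -/
theorem exists_param {n : ℕ} (S : Finset (Fin n → ℤ)) :
    ∃ (d : ℕ) (ψ : (Fin d → ℤ) →+ (Fin n → ℤ)), d ≤ S.card ∧ Function.Injective ψ ∧
      ∀ x ∈ AddSubgroup.closure (S : Set (Fin n → ℤ)), ∃ z, ψ z = x := by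
  let M := Submodule.span ℤ (S : Set (Fin n → ℤ))
  let b := Module.finBasis ℤ M
  refine ⟨Module.finrank ℤ M, (M.subtype ∘ₗ b.equivFun.symm.toLinearMap).toAddMonoidHom,
    finrank_span_finset_le_card S, ?_, ?_⟩
  · intro x y hxy
    have h1 : (b.equivFun.symm x : Fin n → ℤ) = b.equivFun.symm y := hxy
    exact b.equivFun.symm.injective (Subtype.ext h1)
  · intro x hx
    have h1 : AddSubgroup.closure (S : Set (Fin n → ℤ)) ≤ M.toAddSubgroup := by
      rw [AddSubgroup.closure_le]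
      exact Submodule.subset_span
    have hxM : x ∈ M := h1 hx
    refine ⟨b.equivFun ⟨x, hxM⟩, ?_⟩
    show ((b.equivFun.symm (b.equivFun ⟨x, hxM⟩) : M) : Fin n → ℤ) = x
    rw [LinearEquiv.symm_apply_apply]

/-- pigeonhole -/
theorem pigeon {α β : Type*} [DecidableEq β] (s : Finset α) (t : Finset β) (f : α → β)
    (hf : ∀ a ∈ s, f a ∈ t) (ht : t.Nonempty) :
    ∃ y ∈ t, s.card ≤ t.card * (s.filter fun a => f a = y).card := by
  by_contra hc
  push Not at hc
  have h1 := Finset.card_eq_sum_card_fiberwise (s := s) (t := t) (f := f) hf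
  have h2 : ∑ y ∈ t, t.card * (s.filter fun a => f a = y).card < ∑ _y ∈ t, s.card :=
    Finset.sum_lt_sum_of_nonempty ht hc
  rw [← Finset.mul_sum, ← h1, Finset.sum_const, smul_eq_mul] at h2
  exact lt_irrefl _ h2

theorem dec_irrel {α : Type*} [Add α] (S : Finset α) (i j : DecidableEq α) :
    @HAdd.hAdd (Finset α) (Finset α) (Finset α) (@instHAdd _ (@Finset.add α i _)) S S =
      @HAdd.hAdd (Finset α) (Finset α) (Finset α) (@instHAdd _ (@Finset.add α j _)) S S := by
  rw [Subsingleton.elim i j]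

/-- a dense slice -/
theorem weak_slice {n : ℕ} {K : ℝ} {S : Finset (Fin n → ℤ)} (hS : S.Nonempty)
    (hK : ((S + S).card : ℝ) ≤ K * S.card) :
    ∃ (d : ℕ) (ψ : (Fin d → ℤ) →+ (Fin n → ℤ)) (t : Fin n → ℤ) (S0 : Finset (Fin d → ℤ)),
      (d : ℝ) ≤ 480 * Real.log K + 1 ∧ Function.Injective ψ ∧ (∀ z ∈ S0, t + ψ z ∈ S) ∧
        (S.card : ℝ) ≤ K ^ 185 * S0.card := by
  classical
  obtain ⟨P, S', T, hPf, -, -, hS', hTS, hT, hcov⟩ := H137.Weak.weak_marton hS
    (le_of_eq_of_le (congrArg (fun F : Finset (Fin n → ℤ) => (F.card : ℝ)) (dec_irrel S _ _)) hK)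
  obtain ⟨d, ψ, hd, hψ, hψr⟩ := exists_param S'
  have hP : P = ⊥ := by
    rw [eq_bot_iff]
    intro p hp
    have hfo : IsOfFinAddOrder (⟨p, hp⟩ : P) := isOfFinAddOrder_of_finite _
    rw [isOfFinAddOrder_iff_nsmul_eq_zero] at hfo
    obtain ⟨m, hm, hmp⟩ := hfo
    have h1 : m • p = 0 := by
      have := congrArg (Subtype.val) hmp
      simpa using this
    rw [AddSubgroup.mem_bot]
    exact (smul_eq_zero.1 h1).resolve_left hm.ne'
  have hcov' : ∀ a ∈ S, ∃ t ∈ T, a - t ∈ AddSubgroup.closure (S' : Set (Fin n → ℤ)) := by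
    intro a ha
    obtain ⟨t, ht, o, ⟨m, hm, hmo⟩, hat⟩ := hcov a ha
    have ho : o = 0 := (smul_eq_zero.1 hmo).resolve_left (by rintro rfl; exact absurd hm (by decide))
    rw [hP, bot_sup_eq, ho, sub_zero] at hat
    exact ⟨t, ht, hat⟩
  choose! τ hτT hτ using hcov'
  have hTne : T.Nonempty := by
    obtain ⟨a, ha⟩ := hS
    exact ⟨τ a, hτT a ha⟩
  obtain ⟨t, htT, hcard⟩ := pigeon S T τ hτT hTne
  have hg : ∀ a ∈ S.filter (fun a => τ a = t), ∃ z, ψ z = a - t := by
    intro a ha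
    rw [Finset.mem_filter] at ha
    apply hψr
    rw [← ha.2]
    exact hτ a ha.1
  choose! g hg using hg
  refine ⟨d, ψ, t, (S.filter fun a => τ a = t).image g, ?_, hψ, ?_, ?_⟩
  · have : (d : ℝ) ≤ S'.card := by exact_mod_cast hd
    linarith
  · intro z hz
    rw [Finset.mem_image] at hz
    obtain ⟨a, ha, rfl⟩ := hz
    rw [hg a ha]
    rw [Finset.mem_filter] at ha
    simpa using ha.1
  · rw [Finset.card_image_of_injOn]
    · have h1 : (S.card : ℝ) ≤ T.card * (S.filter fun a => τ a = t).card := by exact_mod_cast hcard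
      exact h1.trans (by gcongr)
    · intro a ha b hb hab
      have h1 := hg a ha
      have h2 := hg b hb
      have hab' : g a = g b := hab
      rw [hab', h2] at h1
      exact (sub_left_injective h1).symm

/-- the real extension of a homomorphism of lattices -/
noncomputable def ext {n d : ℕ} (ψ : (Fin d → ℤ) →+ (Fin n → ℤ)) :
    (Fin d → ℝ) →ₗ[ℝ] (Fin n → ℝ) :=
  Fintype.linearCombination ℝ fun i => rv (ψ (Pi.single i 1))

theorem ext_rv {n d : ℕ} (ψ : (Fin d → ℤ) →+ (Fin n → ℤ)) (z : Fin d → ℤ) :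
    ext ψ (rv z) = rv (ψ z) := by
  have h1 : z = ∑ i, z i • (Pi.single i 1 : Fin d → ℤ) := by
    funext j
    simp [Finset.sum_apply, Pi.single_apply]
  have h2 : ψ z = ∑ i, z i • ψ (Pi.single i 1) := by
    conv_lhs => rw [h1]
    rw [map_sum]
    refine Finset.sum_congr rfl fun i _ => ?_
    rw [map_zsmul]
  rw [h2, ext, Fintype.linearCombination_apply]
  funext j
  simp [rv, Finset.sum_apply]

/-- a symmetric piece of the dense slice -/
theorem sym_slice {n : ℕ} {K : ℝ} {S : Finset (Fin n → ℤ)} (hS : S.Nonempty)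
    (hK : ((S + S).card : ℝ) ≤ K * S.card) {C : Set (Fin n → ℝ)} (hC : Convex ℝ C)
    (hCf : (LP C).Finite) (hSC : ∀ s ∈ S, s ∈ LP C) :
    ∃ (d : ℕ) (ψ : (Fin d → ℤ) →+ (Fin n → ℤ)) (B : Set (Fin d → ℝ)) (R : Finset (Fin d → ℤ))
      (t : Fin n → ℤ), (d : ℝ) ≤ 480 * Real.log K + 1 ∧ Function.Injective ψ ∧ SB B ∧
      (LP B).ncard ≤ (LP C).ncard ∧ (∀ z ∈ R, t + ψ z ∈ S) ∧
      (∀ z ∈ R, ∀ w ∈ R, z - w ∈ LP ((2 : ℝ) • B)) ∧ R.Nonempty ∧
      (S.card : ℝ) ≤ 4 ^ d * K ^ 371 * R.card := by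
  classical
  obtain ⟨d, ψ, t, S0, hd, hψ, hS0, hcard0⟩ := weak_slice hS hK
  have hc : (0 : ℝ) < S.card := by exact_mod_cast hS.card_pos
  have hK1 : 1 ≤ K := by
    have h1 : (S.card : ℝ) ≤ (S + S).card := by
      exact_mod_cast Finset.card_le_card_add_right hS
    by_contra h
    nlinarith
  -- the most popular class
  let f : (Fin d → ℤ) → (Fin d → ZMod 2) := fun z i => (z i : ZMod 2)
  obtain ⟨y, -, hy⟩ := pigeon S0 Finset.univ f (fun _ _ => Finset.mem_univ _) Finset.univ_nonempty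
  have hcu : (Finset.univ : Finset (Fin d → ZMod 2)).card = 2 ^ d := by
    rw [Finset.card_univ, Fintype.card_fun, ZMod.card, Fintype.card_fin]
  rw [hcu] at hy
  set S1 := S0.filter (fun z => f z = y) with hS1
  have hS1S : ∀ z ∈ S1, t + ψ z ∈ S := fun z hz => hS0 z (Finset.mem_filter.1 hz).1
  have hS1ne : S1.Nonempty := by
    rw [← Finset.card_pos]
    by_contra h
    have h1 : S1.card = 0 := by omega
    rw [h1, mul_zero] at hy
    have h2 : S0.card = 0 := by omega
    rw [h2] at hcard0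
    simp only [Nat.cast_zero, mul_zero] at hcard0
    linarith
  -- the popular sum
  obtain ⟨s, hs, hsc⟩ := pigeon (S1 ×ˢ S1) (S1 + S1) (fun p => p.1 + p.2)
    (fun p hp => by
      rw [Finset.mem_product] at hp
      exact Finset.add_mem_add hp.1 hp.2) (hS1ne.add hS1ne)
  set R := S1.filter (fun a => s - a ∈ S1) with hR
  have hRc : ((S1 ×ˢ S1).filter fun p => p.1 + p.2 = s).card ≤ R.card := by
    refine Finset.card_le_card_of_injOn (fun p => p.1) ?_ ?_
    · intro p hp
      rw [Finset.mem_coe, Finset.mem_filter, Finset.mem_product] at hp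
      rw [Finset.mem_coe, hR, Finset.mem_filter]
      refine ⟨hp.1.1, ?_⟩
      rw [← hp.2, add_sub_cancel_left]
      exact hp.1.2
    · intro p hp q hq hpq
      rw [Finset.mem_coe, Finset.mem_filter] at hp hq
      have h1 : p.1 = q.1 := hpq
      have h2 : p.1 + p.2 = q.1 + q.2 := hp.2.trans hq.2.symm
      rw [h1] at h2
      exact Prod.ext h1 (add_left_cancel h2)
  have hss : (S1 + S1).card ≤ (S + S).card := by
    refine Finset.card_le_card_of_injOn (fun z => t + t + ψ z) ?_ ?_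
    · intro z hz
      rw [Finset.mem_coe] at hz
      obtain ⟨a, ha, b, hb, rfl⟩ := Finset.mem_add.1 hz
      rw [Finset.mem_coe]
      show t + t + ψ (a + b) ∈ S + S
      rw [map_add, show t + t + (ψ a + ψ b) = (t + ψ a) + (t + ψ b) by abel]
      exact Finset.add_mem_add (hS1S a ha) (hS1S b hb)
    · intro z _ w _ hzw
      exact hψ (add_left_cancel (hzw : t + t + ψ z = t + t + ψ w))
  have hcardR : (S.card : ℝ) ≤ 4 ^ d * K ^ 371 * R.card := by
    have h1 : (S0.card : ℝ) ≤ 2 ^ d * S1.card := by exact_mod_cast hy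
    have h2 : (S1.card : ℝ) * S1.card ≤ (K * S.card) * R.card := by
      have h3 : S1.card * S1.card ≤ (S + S).card * R.card := by
        rw [Finset.card_product] at hsc
        exact hsc.trans (Nat.mul_le_mul hss hRc)
      have h4 : (S1.card : ℝ) * S1.card ≤ (S + S).card * R.card := by exact_mod_cast h3
      exact h4.trans (by gcongr)
    have h5 : (S.card : ℝ) ≤ K ^ 185 * (2 ^ d * S1.card) := hcard0.trans (by gcongr)
    have h6 : (S.card : ℝ) * S.card ≤ (4 ^ d * K ^ 371 * R.card) * S.card := by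
      calc (S.card : ℝ) * S.card ≤ (K ^ 185 * (2 ^ d * S1.card)) * (K ^ 185 * (2 ^ d * S1.card)) := by
            gcongr
        _ = K ^ 370 * (2 ^ d * 2 ^ d) * (S1.card * S1.card) := by ring
        _ ≤ K ^ 370 * (2 ^ d * 2 ^ d) * ((K * S.card) * R.card) := by gcongr
        _ = (4 ^ d * K ^ 371 * R.card) * S.card := by
          rw [← mul_pow]; norm_num; ring
    exact le_of_mul_le_mul_right h6 hc
  have hRne : R.Nonempty := by
    rw [← Finset.card_pos]
    by_contra h
    have h1 : R.card = 0 := by omega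
    rw [h1] at hcardR
    simp only [Nat.cast_zero, mul_zero] at hcardR
    linarith
  -- the centre
  obtain ⟨a0, ha0⟩ := hRne
  have ha0' := Finset.mem_filter.1 ha0
  have heven : ∀ i, Even (s i) := by
    intro i
    have h1 := (Finset.mem_filter.1 ha0'.1).2
    have h2 := (Finset.mem_filter.1 ha0'.2).2
    have h3 : (a0 i : ZMod 2) = ((s - a0) i : ℤ) := by
      have h4 := congrFun (h1.trans h2.symm) i
      exact h4
    rw [Pi.sub_apply, Int.cast_sub] at h3
    have h5 : ((s i : ℤ) : ZMod 2) = 0 := by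
      have h6 : ((s i : ℤ) : ZMod 2) = (a0 i : ZMod 2) + (a0 i : ZMod 2) := by
        linear_combination -h3
      rw [h6, ← two_mul]
      have : (2 : ZMod 2) = 0 := by decide
      rw [this, zero_mul]
    exact (ZMod.intCast_zmod_eq_zero_iff_dvd _ 2).1 h5 |>.elim fun k hk => ⟨k, by rw [hk]; push_cast; ring⟩
  choose c hcs using heven
  have hcs' : s = c + c := by
    funext i
    exact hcs i
  -- the symmetric set of lattice points
  let Q : Set (Fin d → ℤ) := {h | t + ψ (c + h) ∈ LP C ∧ t + ψ (c - h) ∈ LP C}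
  have hmaps : Set.MapsTo (fun h => t + ψ (c + h)) Q (LP C) := fun h hh => hh.1
  have hinjQ : Set.InjOn (fun h => t + ψ (c + h)) Q := by
    intro z _ w _ hzw
    exact add_left_cancel (hψ (add_left_cancel (hzw : t + ψ (c + z) = t + ψ (c + w))))
  have hQf : Q.Finite := hCf.of_injOn hmaps hinjQ
  have hQc : Q.ncard ≤ (LP C).ncard := Set.ncard_le_ncard_of_injOn _ hmaps hinjQ hCf
  have hQs : ∀ z ∈ Q, -z ∈ Q := by
    rintro z ⟨h1, h2⟩
    refine ⟨?_, ?_⟩
    · rwa [← sub_eq_add_neg]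
    · rwa [sub_neg_eq_add]
  let D : Set (Fin d → ℝ) := {x | rv t + ext ψ (rv c + x) ∈ C ∧ rv t + ext ψ (rv c - x) ∈ C}
  have hDconv : Convex ℝ D := by
    rintro x ⟨hx1, hx2⟩ z ⟨hz1, hz2⟩ α β hα hβ hαβ
    have hβ' : β = 1 - α := by linarith
    refine ⟨?_, ?_⟩
    · have h1 := hC hx1 hz1 hα hβ hαβ
      convert h1 using 1
      rw [map_add, map_add, map_add, map_add, map_smul, map_smul, hβ']
      module
    · have h1 := hC hx2 hz2 hα hβ hαβ
      convert h1 using 1
      rw [map_sub, map_sub, map_sub, map_add, map_smul, map_smul, hβ']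
      module
  have hD : ∀ z, rv z ∈ D ↔ z ∈ Q := by
    intro z
    show (rv t + ext ψ (rv c + rv z) ∈ C ∧ rv t + ext ψ (rv c - rv z) ∈ C) ↔
      (rv (t + ψ (c + z)) ∈ C ∧ rv (t + ψ (c - z)) ∈ C)
    rw [← rv_add, ← rv_sub, ext_rv, ext_rv, ← rv_add, ← rv_add]
  have hQconv : ∀ z, rv z ∈ convexHull ℝ (rv '' Q) → z ∈ Q := by
    intro z hz
    rw [← hD]
    refine convexHull_min ?_ hDconv hz
    rintro _ ⟨w, hw, rfl⟩
    exact (hD w).2 hw
  have hRQ : ∀ a ∈ R, a - c ∈ Q := by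
    intro a ha
    have ha' := Finset.mem_filter.1 ha
    refine ⟨?_, ?_⟩
    · rw [add_sub_cancel]
      exact hSC _ (hS1S a ha'.1)
    · have h1 : c - (a - c) = s - a := by rw [hcs']; abel
      rw [h1]
      exact hSC _ (hS1S _ ha'.2)
  have hQ0 : (0 : Fin d → ℤ) ∈ Q := by
    apply hQconv
    have h1 : rv (a0 - c) ∈ convexHull ℝ (rv '' Q) :=
      subset_convexHull _ _ ⟨_, hRQ a0 ha0, rfl⟩
    have h2 : rv (-(a0 - c)) ∈ convexHull ℝ (rv '' Q) :=
      subset_convexHull _ _ ⟨_, hQs _ (hRQ a0 ha0), rfl⟩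
    have h3 := convex_convexHull ℝ (rv '' Q) h1 h2 (by norm_num : (0 : ℝ) ≤ 1 / 2)
      (by norm_num : (0 : ℝ) ≤ 1 / 2) (by norm_num)
    rw [rv_neg, smul_neg, add_neg_cancel] at h3
    rwa [rv_zero]
  obtain ⟨B, hB, hBQ⟩ := exists_SB Q hQf hQ0 hQs hQconv
  refine ⟨d, ψ, B, R, t, hd, hψ, hB, by rw [hBQ]; exact hQc,
    fun z hz => hS1S z (Finset.mem_filter.1 hz).1, ?_, ⟨a0, ha0⟩, hcardR⟩
  intro z hz w hw
  have h1 : rv (z - c) ∈ (1 : ℝ) • B := by
    rw [one_smul]
    have : z - c ∈ LP B := by rw [hBQ]; exact hRQ z hz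
    exact this
  have h2 : rv (w - c) ∈ (1 : ℝ) • B := by
    rw [one_smul]
    have : w - c ∈ LP B := by rw [hBQ]; exact hRQ w hw
    exact this
  have h3 := hB.add_mem (by norm_num) (by norm_num) h1 (hB.neg_mem h2)
  show rv (z - w) ∈ (2 : ℝ) • B
  rw [show (1 : ℝ) + 1 = 2 by norm_num, ← rv_neg, ← rv_add] at h3
  rwa [show z - w = z - c + -(w - c) by abel]

end Pool.Agent.TH198.DC
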